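import Pool.Agent.H8.AV3.Stmts4

/-!
# AV3B, module ELN: the number of curves
-/

set_option autoImplicit false

namespace Pool.Agent.H48.AV3B

open Polynomial Matrix Pool.AVR Pool.AV3

/-- polynomials of degree at most `N` -/
def PD (F : Type) [Field F] (N : ℕ) : Set F[X] := {p | p.natDegree ≤ N}

theorem PD_eq (F : Type) [Field F] (N : ℕ) : PD F N = (degreeLT F (N + 1) : Set F[X]) := by
  ext p
  simp only [PD, Set.mem_ofPred_eq, SetLike.mem_coe, mem_degreeLT]
  rw [natDegree_le_iff_degree_le]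
  constructor
  · intro h
    exact lt_of_le_of_lt h (by exact_mod_cast Nat.lt_succ_self N)
  · intro h
    by_cases h0 : p = 0
    · rw [h0, degree_zero]; exact bot_le
    · rw [degree_eq_natDegree h0] at h ⊢
      have : p.natDegree < N + 1 := by exact_mod_cast h
      exact_mod_cast Nat.lt_succ_iff.mp this

theorem PD_finite (F : Type) [Field F] [Finite F] (N : ℕ) : (PD F N).Finite := by
  rw [PD_eq]
  have : Finite (degreeLT F (N + 1)) :=
    Finite.of_equiv _ (degreeLTEquiv F (N + 1)).symm.toEquiv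
  exact Set.toFinite _

theorem PD_ncard (F : Type) [Field F] [Finite F] (N : ℕ) :
    (PD F N).ncard = Nat.card F ^ (N + 1) := by
  rw [PD_eq, ← Nat.card_coe_set_eq]
  have h : Nat.card (degreeLT F (N + 1) : Set F[X]) = Nat.card (Fin (N + 1) → F) :=
    Nat.card_congr (degreeLTEquiv F (N + 1)).toEquiv
  rw [h, Nat.card_fun, Nat.card_fin]

theorem disc_alg {F : Type} [Field F] (f : F[X] × F[X] × F[X]) :
    disc (algebraMap F[X] (RatFunc F) f.1) (algebraMap F[X] (RatFunc F) f.2.1)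
      (algebraMap F[X] (RatFunc F) f.2.2) =
      algebraMap F[X] (RatFunc F) (disc f.1 f.2.1 f.2.2) := by
  unfold disc
  simp only [map_sub, map_add, map_mul, map_pow, map_ofNat]

theorem eln_thm (hCNF : Pool.AVR.CNFStmt) (hDSC : Pool.AVR.DSCStmt) : Pool.AV3.ELNStmt := by
  intro F _ _ h2 n hn
  obtain ⟨hfin, hcard, hbad⟩ := hCNF F h2 n hn
  have hfE : Ell F n ⊆ Fam F n := fun f hf => hf.1
  have hEE : El F n ⊆ Ell F n := fun f hf => hf.1
  have hEfin : (Ell F n).Finite := hfin.subset hfE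
  have hElfin : (El F n).Finite := hEfin.subset hEE
  have h2' : (2 : RatFunc F) ≠ 0 := by
    have h := (algebraMap F (RatFunc F)).injective.ne h2
    rwa [map_ofNat, map_zero] at h
  -- the singular cubics
  have h1 : Fam F n \ Ell F n ⊆
      {f ∈ Fam F n | ¬ (Irreducible (cubK f) ∧ (cubK f).Separable)} := by
    rintro f ⟨hf, hf'⟩
    refine ⟨hf, fun h => hf' ⟨hf, fun h0 => ?_⟩⟩
    have h3 := ((hDSC (RatFunc F) h2' (algebraMap F[X] (RatFunc F) f.1)
      (algebraMap F[X] (RatFunc F) f.2.1) (algebraMap F[X] (RatFunc F) f.2.2)).1).1 h.2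
    apply h3
    rw [disc_alg, h0, map_zero]
  have hc1 : (Fam F n \ Ell F n).ncard ≤ 2 * Nat.card F ^ (8 * n + 3) :=
    (Set.ncard_le_ncard h1 (hfin.subset fun f hf => hf.1)).trans hbad
  -- the curves with `a = 0`
  have h4 : Ell F n \ El F n ⊆
      (fun g : F[X] × F[X] => ((0 : F[X]), g.1, g.2)) '' (PD F (4 * n) ×ˢ PD F (6 * n)) := by
    rintro ⟨a, b, c⟩ ⟨hf, hf'⟩
    have ha : a = 0 := by
      by_contra ha
      exact hf' ⟨hf, Or.inr ha⟩
    subst ha
    exact ⟨(b, c), ⟨hf.1.2.1, hf.1.2.2⟩, rfl⟩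
  have hPf : (PD F (4 * n) ×ˢ PD F (6 * n) : Set (F[X] × F[X])).Finite :=
    (PD_finite F _).prod (PD_finite F _)
  have hc4 : (Ell F n \ El F n).ncard ≤ Nat.card F ^ (10 * n + 2) := by
    refine (Set.ncard_le_ncard h4 (hPf.image _)).trans ((Set.ncard_image_le hPf).trans ?_)
    rw [Set.ncard_prod, PD_ncard, PD_ncard, ← pow_add]
    exact (congrArg (fun k => Nat.card F ^ k) (by omega)).le
  have hq : 1 ≤ Nat.card F := Nat.card_pos
  have hc5 : (Ell F n \ El F n).ncard ≤ Nat.card F ^ (10 * n + 3) :=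
    hc4.trans (Nat.pow_le_pow_right hq (by omega))
  have hc6 : (Ell F n).ncard ≤ Nat.card F ^ (12 * n + 3) := by
    rw [← hcard]
    exact Set.ncard_le_ncard hfE hfin
  have hc7 : (El F n).ncard ≤ Nat.card F ^ (12 * n + 3) :=
    (Set.ncard_le_ncard hEE hEfin).trans hc6
  refine ⟨hEfin, hc6, hc7, ?_, hc5⟩
  have e1 := Set.ncard_sdiff_add_ncard_of_subset hfE hfin
  have e2 := Set.ncard_sdiff_add_ncard_of_subset hEE hEfin
  have e3 : Nat.card F ^ (8 * n + 3) ≤ Nat.card F ^ (10 * n + 3) :=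
    Nat.pow_le_pow_right hq (by omega)
  rw [← hcard]
  omega

end Pool.Agent.H48.AV3B
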